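import Pool.Agent.X202.Hid5

/-!
# Hidden sets and relatively polyhedric convex sets

For closed convex sets `C ⊆ D` in a complete linear metric space, `C` hides no infinite subset of
`D \ C` if and only if `C` is polyhedric in `D ∩ aff C`.

Outline (files `Pool/Agent/X202/Hid*`). Assume that `C` hides no infinite subset of `D \ C`.

1. (`Hid1`, `Hid2`) Abstract version: `V` a real vector space, `p` a nonnegative finite sublinear
   functional, `{p ≤ 1} ⊆ D`. Consider triples `(s, x, g)`: `s` a finite subset of `V`, `x ∈ D` with
   `p x > 1`, `g ≤ p` linear with `g x = p x`, such that the directional derivative of `p` at `x`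
   is `g` on `s`. For an ultrafilter `U` of triples with `v ∈ s` eventually for every `v`, let
   `γ` be the limit of the functionals `g`. If `γ x < p x` for `U`-almost all triples, one finds
   inductively an infinite set hidden behind `{p ≤ 1}`. Otherwise `γ x = p x` for `U`-almost all
   triples, and by compactness finitely many linear functionals `γ ≤ p` satisfy `max γ x = p x` for
   all triples with large `s`, hence (Rademacher's theorem) for all `x ∈ D` with `p x > 1`.
2. (`Hid3`, `Hid4`) By completeness every countable subset of `C` is contained in `x₀ + V` for a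
   point `x₀ ∈ C` which is a core point of `C` in `x₀ + V`. So by 1. every countable subset of
   `(D ∩ aff C) \ C` is covered by finitely many convex sets disjoint from `C`, hence there is a
   common bound for the finite subsets, and a selection argument gives a finite cover of
   `(D ∩ aff C) \ C`.
3. (`Hid5`) Stone's separation theorem; the converse implication is elementary.
-/

set_option autoImplicit false
set_option linter.unusedVariables false

namespace Pool.Agent.Results.MP_ec84ce_an.HiddenSets

/-- `C` hides `A`: the segment `conv {a, b}` meets `C` for all distinct points `a, b` of `A`. -/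
def Hides {X : Type*} [AddCommGroup X] [Module ℝ X] (C A : Set X) : Prop :=
  ∀ a ∈ A, ∀ b ∈ A, a ≠ b → (convexHull ℝ {a, b} ∩ C).Nonempty

/-- `C` is polyhedric in `D'`: it is the intersection of sets `H 0, …, H n ⊆ D'` such that `H i`
and `D' \ H i` are convex. -/
def PolyhedricIn {X : Type*} [AddCommGroup X] [Module ℝ X] (C D' : Set X) : Prop :=
  ∃ (n : ℕ) (H : Fin (n + 1) → Set X),
    (∀ i, H i ⊆ D' ∧ Convex ℝ (H i) ∧ Convex ℝ (D' \ H i)) ∧ C = ⋂ i, H i

universe u

theorem result :
    ∀ (X : Type u) [AddCommGroup X] [Module ℝ X] [MetricSpace X] [CompleteSpace X]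
      [IsTopologicalAddGroup X] [ContinuousSMul ℝ X] (C D : Set X),
      IsClosed C → IsClosed D → Convex ℝ C → Convex ℝ D → C ⊆ D →
      ((¬ ∃ A : Set X, A.Infinite ∧ A ⊆ D \ C ∧ Hides C A) ↔
        PolyhedricIn C (D ∩ (affineSpan ℝ C : Set X))) := by
  intro X _ _ _ _ _ _ C D hCc _ hC hD hCD
  exact Pool.Agent.X202.Hid.main hCc hC hD hCD

end Pool.Agent.Results.MP_ec84ce_an.HiddenSets
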